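import Mathlib
import Pool.Agent.Helper79_Trinomial.Basic

set_option autoImplicit false

open Finset Polynomial

namespace Pool.Agent.Results.MP_bba144_nt.DivisibilityQ1

/-- The generalized central trinomial coefficient `T_m(b,c)`: the coefficient of `x^m`
in `(x^2 + b x + c)^m`. -/
noncomputable def T (b c : ℤ) (m : ℕ) : ℤ := ((X ^ 2 + C b * X + C c) ^ m : ℤ[X]).coeff m

/-- Question Q1: for all integers `b, c` and all `n ≥ 1`, the integer `n` divides
`∑_{j<n} (8cj+4c+b) T_j(b,c^2)^2 (b-2c)^(2(n-1-j))`. -/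
theorem result (b c : ℤ) (n : ℕ) (hn : 1 ≤ n) :
    (n : ℤ) ∣ ∑ j ∈ range n,
      (8 * c * (j : ℤ) + 4 * c + b) * T b (c ^ 2) j ^ 2 * (b - 2 * c) ^ (2 * (n - 1 - j)) := by
  obtain ⟨m, rfl⟩ : ∃ m, n = m + 1 := ⟨n - 1, by omega⟩
  have h := Helper79_Trinomial.dvd_S c (b - 2 * c) m
  have e : Helper79_Trinomial.S c (b - 2 * c) (m + 1) = ∑ j ∈ range (m + 1),
      (8 * c * (j : ℤ) + 4 * c + b) * T b (c ^ 2) j ^ 2
        * (b - 2 * c) ^ (2 * (m + 1 - 1 - j)) := by
    unfold Helper79_Trinomial.S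
    apply sum_congr rfl
    intro j _
    rw [T, Helper79_Trinomial.coeff_trinomial]
    ring
  rw [← e]
  push_cast
  exact h

end Pool.Agent.Results.MP_bba144_nt.DivisibilityQ1
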