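import Mathlib
import Pool.Agent.Helper79_Trinomial.Basic
import Pool.Agent.Helper79_Trinomial.ModP

set_option autoImplicit false

open Finset Polynomial

namespace Pool.Agent.Results.MP_bba144_nt.SupercongruenceQ2

/-- The generalized central trinomial coefficient `T_m(b,c)`: the coefficient of `x^m`
in `(x^2 + b x + c)^m`. -/
noncomputable def T (b c : ℤ) (m : ℕ) : ℤ := ((X ^ 2 + C b * X + C c) ^ m : ℤ[X]).coeff m

/-- Question Q2: for all integers `b, c` and every odd prime `p` not dividing `b (b - 2c)`, the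
rational number `∑_{j<p} (8cj+4c+b) T_j(b,c^2)^2 / (b-2c)^(2j)` is congruent to
`p (b+2c) ((b^2-4c^2)/p)` modulo `p^2`, i.e. the difference is `p^2` times a rational number whose
denominator is prime to `p`. -/
theorem result (b c : ℤ) (p : ℕ) [hp : Fact p.Prime] (hp2 : p ≠ 2)
    (h : ¬ (p : ℤ) ∣ b * (b - 2 * c)) :
    ∃ r : ℚ, Nat.Coprime r.den p ∧
      (∑ j ∈ range p, (8 * (c : ℚ) * (j : ℚ) + 4 * (c : ℚ) + (b : ℚ))
          * ((T b (c ^ 2) j : ℤ) : ℚ) ^ 2 / ((b : ℚ) - 2 * (c : ℚ)) ^ (2 * j))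
        - (p : ℚ) * ((b : ℚ) + 2 * (c : ℚ)) * ((legendreSym p (b ^ 2 - 4 * c ^ 2) : ℤ) : ℚ)
        = (p : ℚ) ^ 2 * r := by
  obtain ⟨q, hq⟩ := Helper79_Trinomial.S_prime p hp2 b c h
  have hpr : Prime (p : ℤ) := Nat.prime_iff_prime_int.mp hp.out
  have hdd : ¬ (p : ℤ) ∣ (b - 2 * c) := fun h' => h (h'.mul_left _)
  have hd0 : (b - 2 * c : ℤ) ≠ 0 := by
    intro h0; rw [h0] at hdd; exact hdd (dvd_zero _)
  have hdq : ((b : ℚ) - 2 * (c : ℚ)) ≠ 0 := by exact_mod_cast hd0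
  have hpos := hp.out.pos
  refine ⟨(q : ℚ) / (((b - 2 * c) ^ (2 * (p - 1)) : ℤ) : ℚ), ?_, ?_⟩
  · rw [Nat.coprime_comm, Nat.Prime.coprime_iff_not_dvd hp.out]
    intro hdvd
    have h1 : (((q : ℚ) / (((b - 2 * c) ^ (2 * (p - 1)) : ℤ) : ℚ)).den : ℤ)
        ∣ (b - 2 * c) ^ (2 * (p - 1)) := by
      rw [← Rat.divInt_eq_div]
      exact Rat.den_dvd _ _
    have h2 : (p : ℤ) ∣ (b - 2 * c) ^ (2 * (p - 1)) :=
      (Int.natCast_dvd_natCast.mpr hdvd).trans h1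
    exact hdd (hpr.dvd_of_dvd_pow h2)
  · have e : ((Helper79_Trinomial.S c (b - 2 * c) p : ℤ) : ℚ)
        = (∑ j ∈ range p, (8 * (c : ℚ) * (j : ℚ) + 4 * (c : ℚ) + (b : ℚ))
          * ((T b (c ^ 2) j : ℤ) : ℚ) ^ 2 / ((b : ℚ) - 2 * (c : ℚ)) ^ (2 * j))
          * ((b : ℚ) - 2 * (c : ℚ)) ^ (2 * (p - 1)) := by
      unfold Helper79_Trinomial.S
      push_cast
      rw [sum_mul]
      apply sum_congr rfl
      intro j hj
      have hj' : j < p := mem_range.mp hj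
      rw [T, Helper79_Trinomial.coeff_trinomial]
      have e1 : 2 * (p - 1) = 2 * j + 2 * (p - 1 - j) := by omega
      rw [e1, pow_add]
      have hj0 : ((b : ℚ) - 2 * (c : ℚ)) ^ (2 * j) ≠ 0 := pow_ne_zero _ hdq
      rw [div_mul_eq_mul_div, eq_div_iff hj0]
      ring
    have hq' := congrArg (Int.cast : ℤ → ℚ) hq
    push_cast at hq'
    rw [e] at hq'
    push_cast
    have hdp : ((b : ℚ) - 2 * (c : ℚ)) ^ (2 * (p - 1)) ≠ 0 := pow_ne_zero _ hdq
    rw [mul_div_assoc', eq_div_iff hdp]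
    linear_combination hq'

end Pool.Agent.Results.MP_bba144_nt.SupercongruenceQ2
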